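import Pool.Agent.Helper4.CI.Goals

/-!
Packet I5 of MP_aa7fc1_ag: volumes of the scaled simplices.
-/

namespace Mono.CI.I5

open Finset Mono Mono.CI

variable {n : ℕ}

theorem idx_congr' {B B' : Set (Fin n → ℤ)}
    (h : AddSubgroup.closure B = AddSubgroup.closure B') : idx B = idx B' := by
  have hs : sat B = sat B' := by
    ext x
    constructor
    · rintro ⟨k, hk, hx⟩
      exact ⟨k, hk, by rw [← h]; exact hx⟩
    · rintro ⟨k, hk, hx⟩
      exact ⟨k, hk, by rw [h]; exact hx⟩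
  unfold idx
  rw [h, hs]

theorem toR_sub (u v : Fin n → ℤ) : toR (u - v) = toR u - toR v := by
  ext i
  simp [toR]

theorem toR_zsmul (c : ℤ) (u : Fin n → ℤ) : toR (c • u) = (c : ℝ) • toR u := by
  ext i
  simp [toR]

/-- An element of an independent set is not in the span of the others. -/
theorem notMem_span {τ : Finset (Fin n → ℤ)} (hτ : Indep τ) {s : Fin n → ℤ} (hs : s ∈ τ) :
    toR s ∉ Submodule.span ℝ (toR '' {u | u ∈ τ ∧ u ≠ s}) := by
  have h := hτ.notMem_span_image (s := {u : τ | (u : Fin n → ℤ) ≠ s}) (x := ⟨s, hs⟩) (by simp)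
  intro hmem
  apply h
  refine Submodule.span_mono ?_ hmem
  rintro _ ⟨u, ⟨hu, hne⟩, rfl⟩
  exact ⟨⟨u, hu⟩, hne, rfl⟩

/-- Differences with all pairs generate the same group as the differences with a base point. -/
theorem closure_pairs (L : ℤ) (P Q : Set (Fin n → ℤ)) (u₀ : Fin n → ℤ) (hu₀ : u₀ ∈ P) :
    AddSubgroup.closure ({x | ∃ u ∈ P, ∃ v ∈ P, x = L • (u - v)} ∪ Q) =
      AddSubgroup.closure ({x | ∃ u ∈ P, u ≠ u₀ ∧ x = L • (u - u₀)} ∪ Q) := by
  apply le_antisymm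
  · rw [AddSubgroup.closure_le]
    rintro x (⟨u, hu, v, hv, rfl⟩ | hx)
    · have key : ∀ w ∈ P, L • (w - u₀) ∈
          AddSubgroup.closure ({x | ∃ u ∈ P, u ≠ u₀ ∧ x = L • (u - u₀)} ∪ Q) := by
        intro w hw
        by_cases h : w = u₀
        · rw [h, sub_self, smul_zero]
          exact AddSubgroup.zero_mem _
        · exact AddSubgroup.subset_closure (Or.inl ⟨w, hw, h, rfl⟩)
      have : L • (u - v) = L • (u - u₀) - L • (v - u₀) := by
        rw [← smul_sub, sub_sub_sub_cancel_right]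
      rw [this]
      exact AddSubgroup.sub_mem _ (key u hu) (key v hv)
    · exact AddSubgroup.subset_closure (Or.inr hx)
  · rw [AddSubgroup.closure_le]
    rintro x (⟨u, hu, -, rfl⟩ | hx)
    · exact AddSubgroup.subset_closure (Or.inl ⟨u, hu, u₀, hu₀, rfl⟩)
    · exact AddSubgroup.subset_closure (Or.inr hx)

/-- The mixed generating set: the differences of the elements of `S` are scaled. -/
def BS (L : ℤ) (P : Set (Fin n → ℤ)) (Q : Set (Fin n → ℤ)) (u₀ : Fin n → ℤ)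
    (S : Finset (Fin n → ℤ)) : Set (Fin n → ℤ) :=
  {x | ∃ u ∈ S, x = L • (u - u₀)} ∪ ({x | ∃ u ∈ P, u ≠ u₀ ∧ u ∉ S ∧ x = u - u₀} ∪ Q)

theorem idx_BS (h1 : IdxSmul) {τ : Finset (Fin n → ℤ)} (hτ : Indep τ) (L : ℕ) (hL : L ≠ 0)
    (P Q : Set (Fin n → ℤ)) (hP : P ⊆ τ) (hQ : Q ⊆ τ) (hPQ : Disjoint P Q) (u₀ : Fin n → ℤ)
    (hu₀ : u₀ ∈ P) (S : Finset (Fin n → ℤ)) (hS : ∀ s ∈ S, s ∈ P ∧ s ≠ u₀) :
    idx (BS (L : ℤ) P Q u₀ S) = L ^ S.card * idx (BS (L : ℤ) P Q u₀ ∅) := by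
  induction S using Finset.induction_on with
  | empty => simp
  | insert s S hsS ih =>
    have hs := hS s (Finset.mem_insert_self _ _)
    have hS' : ∀ t ∈ S, t ∈ P ∧ t ≠ u₀ := fun t ht => hS t (Finset.mem_insert_of_mem ht)
    set B' : Set (Fin n → ℤ) := {x | ∃ u ∈ S, x = (L : ℤ) • (u - u₀)} ∪
      ({x | ∃ u ∈ P, u ≠ u₀ ∧ u ∉ insert s S ∧ x = u - u₀} ∪ Q) with hB'
    have e1 : BS (L : ℤ) P Q u₀ (insert s S) = insert ((L : ℤ) • (s - u₀)) B' := by
      ext x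
      simp only [BS, hB', Set.mem_union, Set.mem_ofPred_eq, Set.mem_insert_iff,
        Finset.mem_insert]
      constructor
      · rintro (⟨u, rfl | hu, rfl⟩ | h)
        · exact Or.inl rfl
        · exact Or.inr (Or.inl ⟨u, hu, rfl⟩)
        · exact Or.inr (Or.inr h)
      · rintro (rfl | ⟨u, hu, rfl⟩ | h)
        · exact Or.inl ⟨s, Or.inl rfl, rfl⟩
        · exact Or.inl ⟨u, Or.inr hu, rfl⟩
        · exact Or.inr h
    have e2 : BS (L : ℤ) P Q u₀ S = insert (s - u₀) B' := by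
      ext x
      simp only [BS, hB', Set.mem_union, Set.mem_ofPred_eq, Set.mem_insert_iff,
        Finset.mem_insert]
      constructor
      · rintro (⟨u, hu, rfl⟩ | ⟨u, hu, hne, huS, rfl⟩ | h)
        · exact Or.inr (Or.inl ⟨u, hu, rfl⟩)
        · by_cases hus : u = s
          · exact Or.inl (by rw [hus])
          · exact Or.inr (Or.inr (Or.inl ⟨u, hu, hne, by tauto, rfl⟩))
        · exact Or.inr (Or.inr (Or.inr h))
      · rintro (rfl | ⟨u, hu, rfl⟩ | ⟨u, hu, hne, huS, rfl⟩ | h)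
        · exact Or.inr (Or.inl ⟨s, hs.1, hs.2, hsS, rfl⟩)
        · exact Or.inl ⟨u, hu, rfl⟩
        · exact Or.inr (Or.inl ⟨u, hu, hne, by tauto, rfl⟩)
        · exact Or.inr (Or.inr h)
    have hnot : toR (s - u₀) ∉ Submodule.span ℝ (toR '' B') := by
      have hle : Submodule.span ℝ (toR '' B') ≤
          Submodule.span ℝ (toR '' {u | u ∈ τ ∧ u ≠ s}) := by
        rw [Submodule.span_le]
        have hin : ∀ u, u ∈ τ → u ≠ s →
            toR u ∈ Submodule.span ℝ (toR '' {u | u ∈ τ ∧ u ≠ s}) := fun u hu hne =>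
          Submodule.subset_span ⟨u, ⟨hu, hne⟩, rfl⟩
        have h0 := hin u₀ (hP hu₀) (fun h => hs.2 h.symm)
        rintro _ ⟨x, hx, rfl⟩
        rcases hx with ⟨u, hu, rfl⟩ | ⟨u, hu, hne, huS, rfl⟩ | hxQ
        · rw [toR_zsmul, toR_sub]
          refine Submodule.smul_mem _ _ (Submodule.sub_mem _ (hin u (hP (hS' u hu).1) ?_) h0)
          rintro rfl
          exact hsS hu
        · rw [toR_sub]
          refine Submodule.sub_mem _ (hin u (hP hu) ?_) h0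
          rintro rfl
          exact huS (Finset.mem_insert_self _ _)
        · refine hin x (hQ hxQ) ?_
          rintro rfl
          exact Set.disjoint_left.1 hPQ hs.1 hxQ
      intro hmem
      have h2 := hle hmem
      have h0 : toR u₀ ∈ Submodule.span ℝ (toR '' {u | u ∈ τ ∧ u ≠ s}) :=
        Submodule.subset_span ⟨u₀, ⟨hP hu₀, fun h => hs.2 h.symm⟩, rfl⟩
      have h3 := Submodule.add_mem _ h2 h0
      rw [toR_sub, sub_add_cancel] at h3
      exact notMem_span hτ (hP hs.1) h3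
    rw [e1, h1 n B' (s - u₀) L hL hnot, ← e2, ih hS', Finset.card_insert_of_notMem hsS, pow_succ]
    ring

theorem volScale (h1 : IdxSmul) (h3 : VolCay) (h : ScaleRel) : VolScale := by
  intro N k A b L b' Z Φ' Φ hT τ hτ hτc
  obtain ⟨-, -, -, hZiff, hdisj, hHiff, -, -, -, -, -⟩ := h N k A b L b' Z Φ' Φ hT
  set H := Hset A Z with hH
  have hL : L ≠ 0 := by
    have := hT.two_le
    omega
  have hLz : (L : ℤ) ≠ 0 := by exact_mod_cast hL
  have hvert : ∀ u ∈ τ, u ∈ Φ.vert := by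
    intro u hu
    rw [hT.vert]
    exact Finset.mem_union_left _ (hτc hu)
  have hind : Indep τ := by
    rw [Fan.faces, Finset.mem_biUnion] at hτ
    obtain ⟨F, hF, hτF⟩ := hτ
    rw [Finset.mem_powerset] at hτF
    have hFi := Φ.mx_indep F hF
    exact hFi.comp (fun u : τ => (⟨u.1, hτF u.2⟩ : F)) (fun a b hab =>
      Subtype.ext (congrArg (fun x : F => (x : Fin (N + k) → ℤ)) hab))
  have hlift : ∀ v ∈ τ, ∃ (c : Option (Fin k)) (u : Fin N → ℤ), v = lift c u := by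
    intro v hv
    have := hτc hv
    rw [cay, Finset.mem_biUnion] at this
    obtain ⟨c, -, hc⟩ := this
    rw [Finset.mem_image] at hc
    obtain ⟨u, -, rfl⟩ := hc
    exact ⟨c, u, rfl⟩
  -- first claim
  have hfirst : volZ H τ = vol τ := by
    rw [← h3 N k τ hlift]
    unfold volZ
    congr 1
    ext x
    simp only [Set.mem_union, Set.mem_ofPred_eq, Finset.mem_sdiff]
    constructor
    · rintro (⟨u, ⟨hu, huH⟩, v, ⟨hv, hvH⟩, rfl⟩ | ⟨hx, hxH⟩)
      · exact Or.inl ⟨u, hu, v, hv, (hHiff u (hτc hu)).1 huH, (hHiff v (hτc hv)).1 hvH, rfl⟩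
      · exact Or.inr ⟨hx, fun hz => (hHiff x (hτc hx)).2 hz hxH⟩
    · rintro (⟨u, hu, v, hv, hu0, hv0, rfl⟩ | ⟨hx, hx0⟩)
      · exact Or.inl ⟨u, ⟨hu, (hHiff u (hτc hu)).2 hu0⟩, v, ⟨hv, (hHiff v (hτc hv)).2 hv0⟩, rfl⟩
      · refine Or.inr ⟨hx, ?_⟩
        by_contra hxH
        exact hx0 ((hHiff x (hτc hx)).1 hxH)
  refine ⟨hfirst, ?_⟩
  rintro ⟨u₀, hu₀⟩
  have hu₀τ : u₀ ∈ τ := (Finset.mem_sdiff.1 hu₀).1
  -- the elements of the image
  have hupH : ∀ u ∈ H, up L H u = u := fun u hu => if_pos hu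
  have hupN : ∀ u, u ∉ H → up L H u = (L : ℤ) • u := fun u hu => if_neg hu
  have hzero : ∀ u ∈ τ, u ∉ H → ∀ j, u (Fin.natAdd N j) = 0 := fun u hu huH =>
    (hHiff u (hτc hu)).1 huH
  have hnz : ∀ u ∈ τ, u ∈ H → ¬ ∀ j, u (Fin.natAdd N j) = 0 := fun u hu huH h0 =>
    (hHiff u (hτc hu)).2 h0 huH
  have hlift' : ∀ v ∈ τ.image (up L H), ∃ (c : Option (Fin k)) (u : Fin N → ℤ), v = lift c u := by
    intro v hv
    rw [Finset.mem_image] at hv
    obtain ⟨w, hw, rfl⟩ := hv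
    by_cases hwH : w ∈ H
    · rw [hupH w hwH]
      exact hlift w hw
    · obtain ⟨c, u, rfl⟩ := hlift w hw
      have hz := hzero _ hw hwH
      refine ⟨none, (L : ℤ) • u, ?_⟩
      rw [hupN _ hwH]
      ext i
      refine Fin.addCases (fun i => ?_) (fun j => ?_) i
      · simp [lift]
      · have hzj := hz j
        simp only [Pi.smul_apply, hzj, smul_zero]
        simp [lift, ind]
  have hnotZ : ∀ v ∈ τ.image (up L H), v ∉ Z := by
    intro v hv
    rw [Finset.mem_image] at hv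
    obtain ⟨w, hw, rfl⟩ := hv
    rw [hZiff w (hvert w hw)]
    exact Finset.disjoint_left.1 hdisj (hτc hw)
  have hvz : volZ Z (τ.image (up L H)) = vol (τ.image (up L H)) := by
    unfold volZ vol
    congr 1
    ext x
    simp only [Set.mem_union, Set.mem_ofPred_eq, Finset.mem_sdiff]
    constructor
    · rintro (⟨u, ⟨hu, -⟩, v, ⟨hv, -⟩, rfl⟩ | ⟨hx, hxZ⟩)
      · exact ⟨u, hu, v, hv, rfl⟩
      · exact absurd hxZ (hnotZ x hx)
    · rintro ⟨u, hu, v, hv, rfl⟩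
      exact Or.inl ⟨u, ⟨hu, hnotZ u hu⟩, v, ⟨hv, hnotZ v hv⟩, rfl⟩
  rw [hvz, ← h3 N k _ hlift']
  -- the two groups
  set P : Set (Fin (N + k) → ℤ) := {u | u ∈ τ ∧ u ∉ H} with hPdef
  set Q : Set (Fin (N + k) → ℤ) := {u | u ∈ τ ∧ u ∈ H} with hQdef
  have hu₀P : u₀ ∈ P := ⟨hu₀τ, (Finset.mem_sdiff.1 hu₀).2⟩
  have eA : ({x | ∃ u ∈ τ.image (up L H), ∃ v ∈ τ.image (up L H),
      (∀ j, u (Fin.natAdd N j) = 0) ∧ (∀ j, v (Fin.natAdd N j) = 0) ∧ x = u - v} ∪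
      {x | x ∈ τ.image (up L H) ∧ ¬ ∀ j, x (Fin.natAdd N j) = 0} : Set (Fin (N + k) → ℤ)) =
      {x | ∃ u ∈ P, ∃ v ∈ P, x = (L : ℤ) • (u - v)} ∪ Q := by
    have him : ∀ x, (x ∈ τ.image (up L H) ∧ ∀ j, x (Fin.natAdd N j) = 0) ↔
        ∃ u ∈ P, x = (L : ℤ) • u := by
      intro x
      rw [Finset.mem_image]
      constructor
      · rintro ⟨⟨w, hw, rfl⟩, hz⟩
        by_cases hwH : w ∈ H
        · rw [hupH w hwH] at hz
          exact absurd hz (hnz w hw hwH)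
        · exact ⟨w, ⟨hw, hwH⟩, hupN w hwH⟩
      · rintro ⟨w, ⟨hw, hwH⟩, rfl⟩
        refine ⟨⟨w, hw, hupN w hwH⟩, fun j => ?_⟩
        rw [Pi.smul_apply, hzero w hw hwH j, smul_zero]
    ext x
    simp only [Set.mem_union, Set.mem_ofPred_eq]
    constructor
    · rintro (⟨u, hu, v, hv, hu0, hv0, rfl⟩ | ⟨hx, hx0⟩)
      · obtain ⟨u', hu', rfl⟩ := (him u).1 ⟨hu, hu0⟩
        obtain ⟨v', hv', rfl⟩ := (him v).1 ⟨hv, hv0⟩
        exact Or.inl ⟨u', hu', v', hv', by rw [smul_sub]⟩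
      · right
        rw [Finset.mem_image] at hx
        obtain ⟨w, hw, rfl⟩ := hx
        by_cases hwH : w ∈ H
        · rw [hupH w hwH]
          exact ⟨hw, hwH⟩
        · exfalso
          apply hx0
          intro j
          rw [hupN w hwH, Pi.smul_apply, hzero w hw hwH j, smul_zero]
    · rintro (⟨u, hu, v, hv, rfl⟩ | ⟨hx, hxH⟩)
      · obtain ⟨hu1, hu2⟩ := (him _).2 ⟨u, hu, rfl⟩
        obtain ⟨hv1, hv2⟩ := (him _).2 ⟨v, hv, rfl⟩
        exact Or.inl ⟨_, hu1, _, hv1, hu2, hv2, by rw [smul_sub]⟩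
      · exact Or.inr ⟨Finset.mem_image.2 ⟨x, hx, hupH x hxH⟩, hnz x hx hxH⟩
  rw [eA]
  have eB : volZ H τ = idx ({x | ∃ u ∈ P, ∃ v ∈ P, x = (1 : ℤ) • (u - v)} ∪ Q) := by
    unfold volZ
    congr 1
    ext x
    simp only [Set.mem_union, Set.mem_ofPred_eq, Finset.mem_sdiff, one_smul, hPdef, hQdef]
  rw [eB, idx_congr' (closure_pairs (L : ℤ) P Q u₀ hu₀P),
    idx_congr' (closure_pairs (1 : ℤ) P Q u₀ hu₀P)]
  have hS : ∀ s ∈ (τ \ H).erase u₀, s ∈ P ∧ s ≠ u₀ := by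
    intro s hs
    rw [Finset.mem_erase, Finset.mem_sdiff] at hs
    exact ⟨hs.2, hs.1⟩
  have hmain := idx_BS h1 hind L hL P Q (fun x hx => hx.1) (fun x hx => hx.1)
    (Set.disjoint_left.2 fun x hx hx' => hx.2 hx'.2) u₀ hu₀P ((τ \ H).erase u₀) hS
  rw [Finset.card_erase_of_mem hu₀] at hmain
  have eC : BS (L : ℤ) P Q u₀ ((τ \ H).erase u₀) =
      {x | ∃ u ∈ P, u ≠ u₀ ∧ x = (L : ℤ) • (u - u₀)} ∪ Q := by
    ext x
    simp only [BS, Set.mem_union, Set.mem_ofPred_eq]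
    constructor
    · rintro (⟨u, hu, rfl⟩ | ⟨u, hu, hne, huS, rfl⟩ | hxQ)
      · exact Or.inl ⟨u, (hS u hu).1, (hS u hu).2, rfl⟩
      · exfalso
        apply huS
        rw [Finset.mem_erase, Finset.mem_sdiff]
        exact ⟨hne, hu⟩
      · exact Or.inr hxQ
    · rintro (⟨u, hu, hne, rfl⟩ | hxQ)
      · refine Or.inl ⟨u, ?_, rfl⟩
        rw [Finset.mem_erase, Finset.mem_sdiff]
        exact ⟨hne, hu⟩
      · exact Or.inr (Or.inr hxQ)
  have eD : BS (L : ℤ) P Q u₀ ∅ = {x | ∃ u ∈ P, u ≠ u₀ ∧ x = (1 : ℤ) • (u - u₀)} ∪ Q := by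
    ext x
    simp only [BS, Set.mem_union, Set.mem_ofPred_eq, one_smul]
    constructor
    · rintro (⟨u, hu, rfl⟩ | ⟨u, hu, hne, -, rfl⟩ | hxQ)
      · exact absurd hu (Finset.notMem_empty _)
      · exact Or.inl ⟨u, hu, hne, rfl⟩
      · exact Or.inr hxQ
    · rintro (⟨u, hu, hne, rfl⟩ | hxQ)
      · exact Or.inr (Or.inl ⟨u, hu, hne, Finset.notMem_empty _, rfl⟩)
      · exact Or.inr (Or.inr hxQ)
  rw [eC, eD] at hmain
  exact hmain

end Mono.CI.I5
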